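import Pool.Agent.K1H28.ES.Homot
import Pool.Agent.K1H28.ES.Reac
import Pool.Agent.K1H28.ES.Bdry
import Pool.Agent.K1H28.ES.Exist

/-!
MP_437bdf_an, Q1 (positive answer): for every positive reaction of class `C^{1,γ}` and every
exterior-star domain with uniformly `C^{2,γ}` boundary, the Dirichlet problem `-Δu = f(u)` in `Ω`,
`u = 0` on `∂Ω` has exactly one positive bounded solution.

Existence and the basic averaging tools are from the starting development `Pool/Agent/H314/Dir`;
the uniqueness proof is in `Pool/Agent/K1H28/ES`.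
-/

open Metric Set
open scoped InnerProductSpace

namespace Pool.Agent.Results.MP_437bdf_an.ExteriorStarUniqueness

/-- `f` (only its values on `[0,∞)` matter) is a positive reaction of class `C^{1,γ}` on `[0,∞)`. -/
structure IsPositiveReaction (γ : NNReal) (f : ℝ → ℝ) : Prop where
  contDiffOn : ContDiffOn ℝ 1 f (Ici 0)
  holder : ∀ b : ℝ, ∃ C : NNReal, HolderOnWith C γ (derivWithin f (Ici 0)) (Icc 0 b)
  zero : f 0 = 0
  one : f 1 = 0
  neg : ∀ t, 1 < t → f t < 0
  deriv_one : derivWithin f (Ici 0) 1 < 0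
  pos : ∀ t, 0 < t → t < 1 → 0 < f t
  deriv_zero : 0 < derivWithin f (Ici 0) 0

/-- `g` is `C^2` on the ball `B_r(0)`, and there its values and its first two derivatives are bounded
by `M`. -/
def BoundedC2 {d : ℕ} (r : ℝ) (M : NNReal) (g : EuclideanSpace ℝ (Fin d) → ℝ) : Prop :=
  ContDiffOn ℝ 2 g (ball 0 r) ∧
    ∀ x ∈ ball (0 : EuclideanSpace ℝ (Fin d)) r,
      |g x| ≤ M ∧ ‖fderiv ℝ g x‖ ≤ M ∧ ‖iteratedFDeriv ℝ 2 g x‖ ≤ M

/-- The second derivative of `g` is `γ`-Hölder on the ball `B_r(0)`, with constant `M`. -/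
def HolderSecondDeriv {d : ℕ} (γ : NNReal) (r : ℝ) (M : NNReal)
    (g : EuclideanSpace ℝ (Fin d) → ℝ) : Prop :=
  HolderOnWith M γ (iteratedFDeriv ℝ 2 g) (ball 0 r)

/-- In the ball `B_r(p)`, the set `Ω` is exactly the part lying above, in the direction of the unit
vector `ν`, the graph of the function `g` of the component orthogonal to `ν`. -/
def AboveGraph {d : ℕ} (r : ℝ) (Ω : Set (EuclideanSpace ℝ (Fin d)))
    (p ν : EuclideanSpace ℝ (Fin d)) (g : EuclideanSpace ℝ (Fin d) → ℝ) : Prop :=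
  ∀ q ∈ ball p r, (q ∈ Ω ↔ g (q - p - ⟪q - p, ν⟫_ℝ • ν) < ⟪q - p, ν⟫_ℝ)

/-- The boundary of `Ω` is uniformly `C^{2,γ}`: there are `r > 0` and `M` such that, for every
boundary point `p`, the part of `Ω` in the ball `B_r(p)` is the part of that ball lying above (in
some unit direction `ν`) the graph of a function `g` of the component orthogonal to `ν`, where `g`
and its first two derivatives are bounded by `M` on `B_r(0)` and the second derivative is
`γ`-Hölder with constant `M` there. -/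
def UniformlySmooth {d : ℕ} (γ : NNReal) (Ω : Set (EuclideanSpace ℝ (Fin d))) : Prop :=
  ∃ r : ℝ, 0 < r ∧ ∃ M : NNReal, ∀ p ∈ frontier Ω,
    ∃ ν : EuclideanSpace ℝ (Fin d), ‖ν‖ = 1 ∧ ∃ g : EuclideanSpace ℝ (Fin d) → ℝ,
      BoundedC2 r M g ∧ HolderSecondDeriv γ r M g ∧ AboveGraph r Ω p ν g

/-- A domain: nonempty, connected, open, with uniformly `C^{2,γ}` boundary. -/
structure IsSmoothDomain {d : ℕ} (γ : NNReal) (Ω : Set (EuclideanSpace ℝ (Fin d))) : Prop where
  nonempty : Ω.Nonempty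
  connected : IsConnected Ω
  isOpen : IsOpen Ω
  smooth : UniformlySmooth γ Ω

/-- `Ω` is exterior-star: its complement is star-shaped about some point `c`, that is, it contains
the segment from `c` to each of its points. -/
def IsExteriorStar {d : ℕ} (Ω : Set (EuclideanSpace ℝ (Fin d))) : Prop :=
  ∃ c : EuclideanSpace ℝ (Fin d), ∀ y ∈ Ωᶜ, segment ℝ y c ⊆ Ωᶜ

/-- `u` is a positive bounded (classical) solution of `-Δu = f(u)` in `Ω`, `u = 0` on `∂Ω`. -/
structure IsPositiveBoundedSolution {d : ℕ} (f : ℝ → ℝ) (Ω : Set (EuclideanSpace ℝ (Fin d)))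
    (u : EuclideanSpace ℝ (Fin d) → ℝ) : Prop where
  contDiffOn : ContDiffOn ℝ 2 u Ω
  continuousOn : ContinuousOn u (closure Ω)
  bounded : ∃ C : ℝ, ∀ x ∈ Ω, |u x| ≤ C
  pos : ∀ x ∈ Ω, 0 < u x
  boundary : ∀ x ∈ frontier Ω, u x = 0
  equation : ∀ x ∈ Ω, -(Laplacian.laplacian u x) = f (u x)

open Pool.Agent.H314.Dir Pool.Agent.K1H28.ES

theorem lap_eq_laplacian {d : ℕ} (u : Eu d → ℝ) (x : Eu d) :
    lap u x = (Laplacian.laplacian u) x := by
  rw [InnerProductSpace.laplacian_eq_iteratedFDeriv_orthonormalBasis u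
    (EuclideanSpace.basisFun (Fin d) ℝ)]
  unfold lap
  refine Finset.sum_congr rfl fun i _ => ?_
  congr 1
  funext j
  fin_cases j <;> simp

theorem tb_of_smooth {d : ℕ} {γ : NNReal} {Ω : Set (Eu d)} (hΩ : IsOpen Ω)
    (h : UniformlySmooth γ Ω) : ∃ ρ0, TB ρ0 Ω := by
  obtain ⟨r, hr, M, hM⟩ := h
  set M' : ℝ := max M 0 with hM'
  have hM'0 : 0 ≤ M' := le_max_right _ _
  set ρ0 : ℝ := min 1 (min (r / 2) (1 / (2 * (M' + 1)))) with hρ0
  have hρ0p : 0 < ρ0 := lt_min one_pos (lt_min (by positivity) (by positivity))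
  have hρ1 : ρ0 ≤ 1 := min_le_left _ _
  have hρ2 : ρ0 ≤ r / 2 := (min_le_right _ _).trans (min_le_left _ _)
  have hρ3 : ρ0 ≤ 1 / (2 * (M' + 1)) := (min_le_right _ _).trans (min_le_right _ _)
  rw [le_div_iff₀ (by positivity)] at hρ3
  refine ⟨ρ0, hΩ, hρ0p, hρ1, fun p hp => ?_⟩
  obtain ⟨ν, hν, g, ⟨hg, hb⟩, -, hiff⟩ := hM p hp
  have hnorm : ∀ x, ‖fderiv ℝ (fderiv ℝ g) x‖ = ‖iteratedFDeriv ℝ 2 g x‖ := fun x => by
    rw [← norm_iteratedFDeriv_one, norm_iteratedFDeriv_fderiv]
  refine twoBall_of_graph hΩ hp hr hM'0 hν hg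
    (fun x hx => (hnorm x).le.trans ((hb x hx).2.2.trans (le_max_left _ _))) hiff hρ0p
    (by linarith) ?_
  nlinarith

theorem sol_of {d : ℕ} {γ : NNReal} {f : ℝ → ℝ} (hf : IsPositiveReaction γ f) {Ω : Set (Eu d)}
    (hΩ : IsOpen Ω) {u : Eu d → ℝ} (hu : IsPositiveBoundedSolution f Ω u) : Sol f Ω u := by
  obtain ⟨C, hC⟩ := hu.bounded
  have heq : ∀ x ∈ Ω, - lap u x = f (u x) := fun x hx => by
    rw [lap_eq_laplacian]; exact hu.equation x hx
  exact ⟨hu.contDiffOn, hu.continuousOn, hu.pos, le_one_of_bounded hf.contDiffOn hf.one hf.neg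
    hf.deriv_one hΩ hu.contDiffOn hu.continuousOn (fun x hx => (le_abs_self _).trans (hC x hx))
    hu.boundary heq, hu.boundary, heq⟩

theorem of_sol {d : ℕ} {f : ℝ → ℝ} {Ω : Set (Eu d)} {u : Eu d → ℝ} (hu : Sol f Ω u) :
    IsPositiveBoundedSolution f Ω u := by
  refine ⟨hu.cd, hu.cont, ⟨1, fun x hx => ?_⟩, hu.pos, hu.bd, fun x hx => ?_⟩
  · rw [abs_of_pos (hu.pos x hx)]; exact hu.le x hx
  · rw [← lap_eq_laplacian]; exact hu.eq x hx

/-- **Uniqueness on exterior-star domains.** In every dimension `d ≥ 1`, for every `γ ∈ (0,1]`,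
every positive reaction `f` of class `C^{1,γ}` and every exterior-star domain `Ω` with uniformly
`C^{2,γ}` boundary, there is a positive bounded solution of `-Δu = f(u)` in `Ω`, `u = 0` on `∂Ω`,
and any two such solutions agree on the closure of `Ω`. -/
theorem result (d : ℕ) (hd : 1 ≤ d) (γ : NNReal) (_hγ0 : 0 < γ) (_hγ1 : γ ≤ 1)
    (f : ℝ → ℝ) (hf : IsPositiveReaction γ f)
    (Ω : Set (EuclideanSpace ℝ (Fin d))) (hΩ : IsSmoothDomain γ Ω) (hstar : IsExteriorStar Ω) :
    (∃ u, IsPositiveBoundedSolution f Ω u) ∧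
    ∀ u v, IsPositiveBoundedSolution f Ω u → IsPositiveBoundedSolution f Ω v →
      ∀ x ∈ closure Ω, u x = v x := by
  obtain ⟨L, cf, hRf⟩ := rf_of_reaction hf.contDiffOn hf.zero hf.one hf.pos hf.deriv_zero
    hf.deriv_one
  have key : (∃ u, Sol f Ω u) ∧ ∀ u v, Sol f Ω u → Sol f Ω v → ∀ x ∈ Ω, u x = v x := by
    rcases (Ωᶜ).eq_empty_or_nonempty with hemp | hne
    · -- the whole space
      have huniv : Ω = univ := compl_empty_iff.1 hemp
      subst huniv
      constructor
      · refine ⟨fun _ => 1, contDiffOn_const, continuousOn_const, fun _ _ => one_pos,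
          fun _ _ => le_rfl, fun x hx => ?_, fun x _ => ?_⟩
        · simp at hx
        · rw [lap_const, hf.one, neg_zero]
      · intro u v hu hv x _
        rw [unique_univ hRf hu x, unique_univ hRf hv x]
    · obtain ⟨ρ0, hT⟩ := tb_of_smooth hΩ.isOpen hΩ.smooth
      obtain ⟨c, hc⟩ := hstar
      set Ω' : Set (Eu d) := (fun x => x + c) ⁻¹' Ω with hΩ'
      have hT' : TB ρ0 Ω' := hT.translate c
      have hne' : Ω'ᶜ.Nonempty := by
        obtain ⟨y, hy⟩ := hne
        refine ⟨y - c, fun h => hy ?_⟩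
        simpa [hΩ'] using h
      have hnn' : Ω'.Nonempty := by
        obtain ⟨y, hy⟩ := hΩ.nonempty
        exact ⟨y - c, by simpa [hΩ'] using hy⟩
      have hconn' : IsPreconnected Ω' := by
        have h1 : Ω' = (fun x => x - c) '' Ω := by
          ext x
          simp only [hΩ', mem_preimage, mem_image]
          constructor
          · intro hx
            exact ⟨x + c, hx, by abel⟩
          · rintro ⟨y, hy, rfl⟩
            simpa using hy
        rw [h1]
        exact hΩ.connected.isPreconnected.image _ (by fun_prop)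
      have hst : ∀ κ : ℝ, 1 ≤ κ → ∀ y ∈ Ω', κ • y ∈ Ω' := by
        intro κ hκ y hy
        by_contra hcon
        have hκ0 : 0 < κ := by linarith
        have h1 := hc (κ • y + c) hcon
        have h2 : y + c ∈ segment ℝ (κ • y + c) c := by
          refine ⟨κ⁻¹, 1 - κ⁻¹, by positivity, ?_, by ring, ?_⟩
          · rw [sub_nonneg]; exact inv_le_one_of_one_le₀ hκ
          · rw [smul_add, smul_smul, inv_mul_cancel₀ hκ0.ne', sub_smul, one_smul, one_smul]
            abel
        exact h1 h2 hy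
      constructor
      · obtain ⟨u, hu⟩ := exists_sol hRf hT' hconn' hnn' hst
        have h1 := hu.translate (-c)
        have h2 : (fun x : Eu d => x + -c) ⁻¹' Ω' = Ω := by
          ext x; simp [hΩ']
        rw [h2] at h1
        exact ⟨_, h1⟩
      · intro u v hu hv x hx
        have h1 := unique_origin hd hRf hT' hne' hst (hu.translate c) (hv.translate c) (x - c)
          (by simpa [hΩ'] using hx)
        simpa using h1
  constructor
  · obtain ⟨u, hu⟩ := key.1
    exact ⟨u, of_sol hu⟩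
  · intro u v hu hv x hx
    by_cases hxΩ : x ∈ Ω
    · exact key.2 u v (sol_of hf hΩ.isOpen hu) (sol_of hf hΩ.isOpen hv) x hxΩ
    · have hxf : x ∈ frontier Ω := by
        rw [frontier, hΩ.isOpen.interior_eq]; exact ⟨hx, hxΩ⟩
      rw [hu.boundary x hxf, hv.boundary x hxf]

end Pool.Agent.Results.MP_437bdf_an.ExteriorStarUniqueness
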